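import Pool.Agent.V11249.NP.Law
import Pool.Agent.V11249.NP.Fam

/-!
# Integers `m` with `m ^ 2 + 1` and `m ^ 2 + 3` almost prime: the Poisson law in short windows

Call `m` good if neither `m ^ 2 + 1` nor `m ^ 2 + 3` has a prime factor up to `X ^ (1 / r)` (for `m ≤ 3 X` both then have
at most `2 r` prime factors). Let `V` be the product of `1 - ρ(p) / p` over the primes `p ≤ X ^ (1 / r)`, `ρ(p)` the number
of the `m` modulo `p` with `p ∣ (m ^ 2 + 1) (m ^ 2 + 3)`. For `n` in any interval `(X, X + Y]` with `Y ≥ X ^ θ` the number of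
the good integers in `(n, n + T]` has the Poisson distribution with the mean value `T V`, up to an error `ε` which
tends to `0` as `r` grows.
-/

set_option autoImplicit false

namespace Pool.Agent.Results.MP_2dba45_nt.PoissonLaw

open Finset Filter

/-- No prime up to `X ^ (1 / r)` divides `m ^ 2 + 1` or `m ^ 2 + 3`. -/
def Good (r X m : ℕ) : Prop :=
  ∀ p : ℕ, p.Prime → (p : ℝ) ≤ (X : ℝ) ^ (1 / (r : ℝ)) → ¬ p ∣ m ^ 2 + 1 ∧ ¬ p ∣ m ^ 2 + 3

open Classical in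
/-- The number of the good `m` in the window `(n, n + T]`. -/
noncomputable def W (r X T n : ℕ) : ℕ := ((Ioc n (n + T)).filter (fun m => Good r X m)).card

/-- The number of the residues `m` modulo `p` with `p ∣ (m ^ 2 + 1) (m ^ 2 + 3)`. -/
def rho (p : ℕ) : ℕ := ((range p).filter (fun m : ℕ => p ∣ m ^ 2 + 1 ∨ p ∣ m ^ 2 + 3)).card

/-- The density of the good integers. -/
noncomputable def V (r X : ℕ) : ℝ :=
  ∏ p ∈ (Icc 1 ⌊(X : ℝ) ^ (1 / (r : ℝ))⌋₊).filter Nat.Prime, (1 - (rho p : ℝ) / p)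

open Pool.Agent.TH464.PO Pool.Agent.TH464.PW Pool.Agent.W123.RU.Poly Pool.Agent.W123.RP
open Pool.Agent.H373R2.T7

/-- the system -/
noncomputable def F : Fin 2 → Polynomial ℤ := fun i => quad (![1, 1] i) (![0, 0] i) (![1, 3] i)

theorem sys : Sys F := by
  refine Pool.Agent.V11249.NP.sys_of ![1, 1] ![0, 0] ![1, 3] ?_ ?_ ?_ 0 2 ?_
  · intro i
    left
    fin_cases i
    · refine ⟨by norm_num, ?_⟩
      rintro ⟨x, hx⟩
      have hx' : (0 : ℤ) ^ 2 - 4 * 1 * 1 = x * x := hx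
      nlinarith [mul_self_nonneg x]
    · refine ⟨by norm_num, ?_⟩
      rintro ⟨x, hx⟩
      have hx' : (0 : ℤ) ^ 2 - 4 * 1 * 3 = x * x := hx
      nlinarith [mul_self_nonneg x]
  · intro i
    fin_cases i <;> rfl
  · intro i j _ _ h
    fin_cases i <;> fin_cases j <;> simp_all
  · decide

theorem notr : NoTr F := by
  refine Pool.Agent.V11249.NP.noTr_quad ![1, 1] ![0, 0] ![1, 3] ?_
  rintro i j t ht ⟨-, h2, -⟩
  fin_cases i <;> fin_cases j <;> simp at h2 <;> omega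

theorem ev0 (m : ℕ) : (F 0).eval (m : ℤ) = ((m ^ 2 + 1 : ℕ) : ℤ) := by
  refine (quad_eval 1 0 1 (m : ℤ)).trans ?_
  push_cast
  ring

theorem ev1 (m : ℕ) : (F 1).eval (m : ℤ) = ((m ^ 2 + 3 : ℕ) : ℤ) := by
  refine (quad_eval 1 0 3 (m : ℤ)).trans ?_
  push_cast
  ring

lemma Q_iff (p m : ℕ) : Q F p m ↔ (p ∣ m ^ 2 + 1 ∨ p ∣ m ^ 2 + 3) := by
  unfold Q
  rw [Fin.exists_fin_two, ev0, ev1, Int.natCast_dvd_natCast, Int.natCast_dvd_natCast]

lemma good_iff (r N m : ℕ) : Sf (Q F) ⌊(N : ℝ) ^ (1 / (r : ℝ))⌋₊ m ↔ Good r N m := by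
  have h0 : (0 : ℝ) ≤ (N : ℝ) ^ (1 / (r : ℝ)) := by positivity
  constructor
  · intro h p hp hpX
    have h1 := h p (mem_pz.2 ⟨Nat.le_floor hpX, hp⟩)
    rwa [Q_iff, not_or] at h1
  · intro h p hp
    obtain ⟨h1, h2⟩ := mem_pz.1 hp
    rw [Q_iff, not_or]
    exact h p h2 ((Nat.le_floor_iff h0).1 h1)

lemma pz_eq (y : ℕ) : pz y = (Icc 1 y).filter Nat.Prime := by
  ext p
  rw [mem_pz, mem_filter, mem_Icc]
  constructor
  · rintro ⟨h1, h2⟩
    exact ⟨⟨h2.pos, h1⟩, h2⟩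
  · rintro ⟨⟨_, h1⟩, h2⟩
    exact ⟨h1, h2⟩

lemma V_eq (r N : ℕ) : Vq (Q F) ⌊(N : ℝ) ^ (1 / (r : ℝ))⌋₊ = V r N := by
  classical
  unfold Vq V
  rw [pz_eq]
  apply Finset.prod_congr rfl
  intro p _
  have : nuB (Q F) p = rho p := by
    unfold nuB rho
    congr 1
    apply Finset.filter_congr
    intro m _
    exact Q_iff p m
  rw [this]

lemma few (r : ℕ) (hr : 1 ≤ r) : ∀ᶠ X : ℕ in atTop, ∀ m : ℕ, m ≤ 3 * X → Good r X m →
    (m ^ 2 + 1).primeFactorsList.length ≤ 2 * r ∧ (m ^ 2 + 3).primeFactorsList.length ≤ 2 * r := by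
  filter_upwards [sf_APq 1 0 1 r hr, sf_APq 1 0 3 r hr] with N hN hN' m hm hg
  have e1 : (1 : ℤ) * (m : ℤ) ^ 2 + 0 * m + 1 = ((m ^ 2 + 1 : ℕ) : ℤ) := by
    push_cast
    ring
  have e2 : (1 : ℤ) * (m : ℤ) ^ 2 + 0 * m + 3 = ((m ^ 2 + 3 : ℕ) : ℤ) := by
    push_cast
    ring
  constructor
  · have h1 : Sf (Q (qs 1 0 1)) ⌊(N : ℝ) ^ (1 / (r : ℝ))⌋₊ m := by
      intro p hp hd
      rw [qs_Q, e1, Int.natCast_dvd_natCast] at hd
      obtain ⟨h1, h2⟩ := mem_pz.1 hp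
      exact (hg p h2 ((Nat.le_floor_iff (by positivity)).1 h1)).1 hd
    have h2 := ((hN m hm).1 h1).1
    rwa [e1, Int.natAbs_natCast] at h2
  · have h1 : Sf (Q (qs 1 0 3)) ⌊(N : ℝ) ^ (1 / (r : ℝ))⌋₊ m := by
      intro p hp hd
      rw [qs_Q, e2, Int.natCast_dvd_natCast] at hd
      obtain ⟨h1, h2⟩ := mem_pz.1 hp
      exact (hg p h2 ((Nat.le_floor_iff (by positivity)).1 h1)).2 hd
    have h2 := ((hN' m hm).1 h1).1
    rwa [e2, Int.natAbs_natCast] at h2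

open Classical in
/-- **The Poisson law.** For `θ > 0`, `x0` and `ε > 0` there is `r0` such that for all `r ≥ r0` and all large `X`: `m ^ 2 + 1`
and `m ^ 2 + 3` have at most `2 r` prime factors for the good `m ≤ 3 X`; and for all `Y ≥ X ^ θ`, all `T` with
`T V ≤ x0` and all finite sets `A` the number of the `n` in `(X, X + Y]` for which the number of the good `m` in
`(n, n + T]` lies in `A` is `Y ∑_{j ∈ A} e ^ (-T V) (T V) ^ j / j!` up to at most `ε Y`. -/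
theorem result (θ : ℝ) (hθ : 0 < θ) (x0 ε : ℝ) (hε : 0 < ε) :
    ∃ r0 : ℕ, ∀ r : ℕ, r0 ≤ r → ∀ᶠ X : ℕ in atTop,
      (∀ m : ℕ, m ≤ 3 * X → Good r X m →
        (m ^ 2 + 1).primeFactorsList.length ≤ 2 * r ∧ (m ^ 2 + 3).primeFactorsList.length ≤ 2 * r) ∧
      ∀ Y : ℕ, (X : ℝ) ^ θ ≤ Y → ∀ T : ℕ, T * V r X ≤ x0 → ∀ A : Finset ℕ,
        |(((Ioc X (X + Y)).filter (fun n => W r X T n ∈ A)).card : ℝ) -
          Y * ∑ j ∈ A, Real.exp (-(T * V r X)) * (T * V r X) ^ j / j.factorial| ≤ ε * Y := by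
  obtain ⟨r0, h0⟩ := poisson_all F sys notr θ hθ x0 ε hε
  refine ⟨max r0 1, ?_⟩
  intro r hr
  filter_upwards [h0 r ((le_max_left _ _).trans hr), few r ((le_max_right _ _).trans hr)] with X hX hap
  refine ⟨hap, ?_⟩
  intro Y hXY T hT A
  have h1 := hX Y hXY T (by rw [V_eq]; exact hT) A
  rw [V_eq] at h1
  have hW : ∀ n, Np F ⌊(X : ℝ) ^ (1 / (r : ℝ))⌋₊ T n = W r X T n := by
    intro n
    unfold Np W
    congr 1
    apply Finset.filter_congr
    intro m _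
    exact good_iff r X m
  simp only [hW] at h1
  exact h1

end Pool.Agent.Results.MP_2dba45_nt.PoissonLaw
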