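import Pool.Agent.H225.DG

/-!
# The pairs `m² + 1`, `m² + 3` at integers with restricted digits, in short intervals

Let `b ≥ 2` be a base and let the digits of a number `n < b^K` be restricted: the `i`-th digit belongs
to a set `A i`, where the sets `A i` are arbitrary, depend on the place `i < K`, and have the only
property that the number `∏ |A i|` of these integers `n` is at least `e^{-δK} b^K`, where the constant
`δ > 0` does not depend on `b`.  (For example one digit may be excluded at every place if `b` is large;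
or a positive proportion of the digits may be fixed.)  Let `N` be an arbitrary base point up to a fixed
power of `b^K`, and `m = N + n`.  The number of these `m` for which `m² + 1` and `m² + 3` are both prime
should have the order of magnitude `∏ |A i| / K²` (if the last digit can be chosen such that both numbers
are prime to `b`).

We show that this is an upper bound, and a lower bound for the number of the `m` for which `m² + 1` and
`m² + 3` have at most `r` prime factors each, all of them larger than `b^{K/r}`.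

The method is a Brun–Hooley sieve with weights, whose level of distribution is obtained from the Fourier
transform of the set of the integers with restricted digits at rationals (large sieve in blocks of
digits), see `Pool/Agent/Y816/PD`; the sieve product is evaluated by Mertens' theorem for the roots of
irreducible polynomials modulo primes (`Pool.Agent.H225.DG`).
-/

set_option autoImplicit false

namespace Pool.Agent.Results.MP_2dba45_nt.RestrictedDigits

open Finset Filter Polynomial

open Classical in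
/-- The number of the `n < b ^ K` in `T` whose `i`-th digit in base `b` belongs to `A i` for all
`i < K`. -/
noncomputable def count (b K : ℕ) (A : ℕ → Finset ℕ) (T : Set ℕ) : ℕ :=
  ((range (b ^ K)).filter (fun n => (∀ i < K, n / b ^ i % b ∈ A i) ∧ n ∈ T)).card

/-- The number of choices of the digits. -/
noncomputable def choices (K : ℕ) (A : ℕ → Finset ℕ) : ℝ := ∏ i ∈ range K, ((A i).card : ℝ)

/-- `m` has at most `r` prime factors, counted with multiplicity, and all of them are larger than
`z ^ (1 / r)`. -/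
def AlmostPrime (r z m : ℕ) : Prop :=
  (∀ p : ℕ, p.Prime → p ∣ m → z < p ^ r) ∧ m.primeFactorsList.length ≤ r

open Pool.Agent.Y816.PD (NA ND)
open Pool.Agent.W123.RU.Poly (Sys)

lemma irr_sq_add (c : ℕ) (hc : 0 < c) : Irreducible (X ^ 2 + C (c : ℤ) : ℤ[X]) := by
  have hdeg : (X ^ 2 + C (c : ℤ) : ℤ[X]).natDegree = 2 := natDegree_X_pow_add_C
  have hmon : (X ^ 2 + C (c : ℤ) : ℤ[X]).Monic := monic_X_pow_add_C _ (by norm_num)
  rw [hmon.irreducible_iff_roots_eq_zero_of_degree_le_three (by omega) (by omega)]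
  rw [Multiset.eq_zero_iff_forall_notMem]
  intro x hx
  have h := (mem_roots'.1 hx).2
  rw [IsRoot, eval_add, eval_pow, eval_X, eval_C] at h
  have h1 : (0 : ℤ) < c := by exact_mod_cast hc
  nlinarith [sq_nonneg x]

/-- the two polynomials -/
noncomputable def f : Fin 2 → ℤ[X] := ![X ^ 2 + C ((1 : ℕ) : ℤ), X ^ 2 + C ((3 : ℕ) : ℤ)]

lemma eval0 (m : ℕ) : ((f 0).eval (m : ℤ)).natAbs = m ^ 2 + 1 := by
  have e : (f 0).eval (m : ℤ) = ((m ^ 2 + 1 : ℕ) : ℤ) := by simp [f]
  rw [e, Int.natAbs_natCast]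

lemma eval1 (m : ℕ) : ((f 1).eval (m : ℤ)).natAbs = m ^ 2 + 3 := by
  have e : (f 1).eval (m : ℤ) = ((m ^ 2 + 3 : ℕ) : ℤ) := by simp [f]
  rw [e, Int.natAbs_natCast]

lemma sys : Sys f where
  irr := by
    intro i
    fin_cases i
    · exact irr_sq_add 1 (by norm_num)
    · exact irr_sq_add 3 (by norm_num)
  deg := by
    intro i
    fin_cases i
    · change 0 < (X ^ 2 + C ((1 : ℕ) : ℤ) : ℤ[X]).natDegree
      rw [natDegree_X_pow_add_C]
      norm_num
    · change 0 < (X ^ 2 + C ((3 : ℕ) : ℤ) : ℤ[X]).natDegree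
      rw [natDegree_X_pow_add_C]
      norm_num
  lead := by
    intro i
    fin_cases i
    · change 0 < (X ^ 2 + C ((1 : ℕ) : ℤ) : ℤ[X]).leadingCoeff
      rw [(monic_X_pow_add_C _ (by norm_num)).leadingCoeff]
      norm_num
    · change 0 < (X ^ 2 + C ((3 : ℕ) : ℤ) : ℤ[X]).leadingCoeff
      rw [(monic_X_pow_add_C _ (by norm_num)).leadingCoeff]
      norm_num
  inj := by
    have h01 : f 0 ≠ f 1 := by
      intro h
      have h1 := eval0 0
      rw [h, eval1] at h1
      omega
    intro i j h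
    fin_cases i <;> fin_cases j
    · rfl
    · exact absurd h h01
    · exact absurd h.symm h01
    · rfl
  adm := by
    intro p hp
    have key : ∀ m : ℕ, ¬ p ∣ m ^ 2 + 1 → ¬ p ∣ m ^ 2 + 3 →
        ∀ i, ¬ (p : ℤ) ∣ (f i).eval (m : ℤ) := by
      intro m h0 h1 i hi
      rw [Int.natCast_dvd] at hi
      fin_cases i
      · exact h0 (by rw [← eval0]; exact hi)
      · exact h1 (by rw [← eval1]; exact hi)
    by_cases h3 : p = 3
    · exact ⟨1, key 1 (by rw [h3]; norm_num) (by rw [h3]; norm_num)⟩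
    · refine ⟨0, key 0 ?_ ?_⟩
      · intro h
        have h1 : p ∣ 1 := by simpa using h
        exact hp.one_lt.ne' (Nat.dvd_one.1 h1)
      · intro h
        have h1 : p ∣ 3 := by simpa using h
        exact h3 ((Nat.prime_dvd_prime_iff_eq hp Nat.prime_three).1 h1)

/-- **The pairs `m² + 1`, `m² + 3` at integers with restricted digits.** -/
theorem result (D : ℕ) :
    ∃ δ : ℝ, 0 < δ ∧ ∃ r₀ : ℕ, 2 ≤ r₀ ∧ ∀ r : ℕ, r₀ ≤ r → ∀ b : ℕ, 2 ≤ b →
      ∃ κ C : ℝ, 0 < κ ∧ 0 < C ∧
      ∀ᶠ K : ℕ in atTop, ∀ N : ℕ, N ≤ b ^ (D * K) →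
        ∀ A : ℕ → Finset ℕ, (∀ i < K, A i ⊆ range b) →
        (b : ℝ) ^ K ≤ Real.exp (δ * K) * choices K A →
        ((∃ d ∈ A 0, ((N + d) ^ 2 + 1).Coprime b ∧ ((N + d) ^ 2 + 3).Coprime b) →
          (∃ d ∈ A (K - 1), d ≠ 0) →
          κ * choices K A / (K : ℝ) ^ 2 ≤ count b K A {n | b ^ (K - 1) ≤ n ∧
            AlmostPrime r (b ^ K) ((N + n) ^ 2 + 1) ∧ AlmostPrime r (b ^ K) ((N + n) ^ 2 + 3)}) ∧
        (count b K A {n | ((N + n) ^ 2 + 1).Prime ∧ ((N + n) ^ 2 + 3).Prime} : ℝ) ≤
          C * choices K A / (K : ℝ) ^ 2 := by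
  obtain ⟨δ, hδ, r₀, hr₀, h⟩ := Pool.Agent.H225.DG.fixed (by norm_num) f sys D
  refine ⟨δ, hδ, r₀, hr₀, fun r hr b hb => ?_⟩
  obtain ⟨κ, C, hκ, hC, h1⟩ := h r hr b hb
  refine ⟨κ, C, hκ, hC, ?_⟩
  filter_upwards [h1] with K hK N hN A hA hprod
  obtain ⟨h2, h3⟩ := hK N hN A hA hprod
  constructor
  · rintro ⟨d, hd, hc0, hc1⟩ htop
    refine (h2 ⟨d, hd, fun i => ?_⟩ htop).trans (Nat.cast_le.2 ?_)
    · fin_cases i
      · exact (eval0 (N + d)).symm ▸ hc0
      · exact (eval1 (N + d)).symm ▸ hc1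
    · refine Pool.Agent.Y816.PD.ND_sub fun n _ hn1 hn2 => ⟨hn1, hn2.1, ?_, ?_⟩
      · have := hn2.2 0
        rw [eval0] at this
        exact this
      · have := hn2.2 1
        rw [eval1] at this
        exact this
  · refine le_trans (Nat.cast_le.2 ?_) h3
    refine Pool.Agent.Y816.PD.ND_sub fun n _ hn1 hn2 => ⟨hn1, fun i => ?_⟩
    have hlt : ∀ v : ℕ, N + n < v → n < v ^ r := fun v hv =>
      lt_of_lt_of_le (by omega) (Nat.le_self_pow (by omega) v)
    fin_cases i
    · have h4 : ((f 0).eval (((N + n : ℕ)) : ℤ)).natAbs.Prime ∧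
          n < ((f 0).eval (((N + n : ℕ)) : ℤ)).natAbs ^ r := by
        rw [eval0]
        exact ⟨hn2.1, hlt _ (by nlinarith [sq_nonneg ((N + n : ℤ) - 1)])⟩
      exact h4
    · have h4 : ((f 1).eval (((N + n : ℕ)) : ℤ)).natAbs.Prime ∧
          n < ((f 1).eval (((N + n : ℕ)) : ℤ)).natAbs ^ r := by
        rw [eval1]
        exact ⟨hn2.2, hlt _ (by nlinarith [sq_nonneg ((N + n : ℤ) - 1)])⟩
      exact h4

end Pool.Agent.Results.MP_2dba45_nt.RestrictedDigits
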